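import Pool.Agent.Run7.h414.HL.A2

set_option autoImplicit false

/-! The constants of Hardy and Littlewood for triples and quadruples. -/

namespace Pool.Agent.Run7.h414.HL
open Finset Filter
open scoped Topology
open Pool.Agent.H373R2.T7 (pz mem_pz Vz)

/-- products over primes -/
noncomputable def PrP (f : ℕ → ℝ) (N : ℕ) : ℝ := ∏ p ∈ (Finset.range N).filter (fun p => p.Prime ∧ 3 < p), f p

lemma prp_succ (f : ℕ → ℝ) (N : ℕ) : PrP f (N + 1) = (if N.Prime ∧ 3 < N then f N else 1) * PrP f N := by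
  unfold PrP
  rw [range_add_one, filter_insert]
  split_ifs with h
  · rw [prod_insert]
    intro hN
    rw [mem_filter, mem_range] at hN
    omega
  · rw [one_mul]

/-- convergence -/
theorem prp_lim (f : ℕ → ℝ) (c : ℝ) (hc : 0 ≤ c) (hf : ∀ p : ℕ, p.Prime → 3 < p → 0 < f p ∧ f p ≤ 1 ∧ 1 ≤ f p * (1 + c / (p : ℝ) ^ 2)) :
    ∃ C : ℝ, 0 < C ∧ Tendsto (PrP f) atTop (𝓝 C) := by
  have hpos : ∀ N, 0 < PrP f N := by
    intro N
    unfold PrP
    apply prod_pos
    intro p hp
    rw [mem_filter] at hp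
    exact (hf p hp.2.1 hp.2.2).1
  have hanti : Antitone (PrP f) := by
    apply antitone_nat_of_succ_le
    intro N
    rw [prp_succ]
    split_ifs with h
    · have h1 := (hf N h.1 h.2).2.1
      have h2 := hpos N
      nlinarith
    · rw [one_mul]
  obtain ⟨Z, hZ⟩ : ∃ Z, Z = ∑' n : ℕ, 1 / (n : ℝ) ^ 2 := ⟨_, rfl⟩
  have hsum : Summable (fun n : ℕ => 1 / (n : ℝ) ^ 2) := Real.summable_one_div_nat_pow.2 (by norm_num)
  have hlow : ∀ N, Real.exp (-(c * Z)) ≤ PrP f N := by
    intro N
    have h1 : 1 ≤ PrP f N * Real.exp (c * Z) := by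
      calc (1 : ℝ) = ∏ p ∈ (Finset.range N).filter (fun p => p.Prime ∧ 3 < p), (1 : ℝ) := prod_const_one.symm
        _ ≤ ∏ p ∈ (Finset.range N).filter (fun p => p.Prime ∧ 3 < p), (f p * (1 + c / (p : ℝ) ^ 2)) := by
            apply Finset.prod_le_prod (fun _ _ => zero_le_one)
            intro p hp
            rw [mem_filter] at hp
            exact (hf p hp.2.1 hp.2.2).2.2
        _ = PrP f N * ∏ p ∈ (Finset.range N).filter (fun p => p.Prime ∧ 3 < p), (1 + c / (p : ℝ) ^ 2) := by
            rw [prod_mul_distrib]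
            rfl
        _ ≤ PrP f N * Real.exp (c * Z) := by
            apply mul_le_mul_of_nonneg_left _ (hpos N).le
            calc ∏ p ∈ (Finset.range N).filter (fun p => p.Prime ∧ 3 < p), (1 + c / (p : ℝ) ^ 2)
                ≤ ∏ p ∈ (Finset.range N).filter (fun p => p.Prime ∧ 3 < p), Real.exp (c / (p : ℝ) ^ 2) := by
                  apply Finset.prod_le_prod
                  · intro p _
                    positivity
                  · intro p _
                    linarith [Real.add_one_le_exp (c / (p : ℝ) ^ 2)]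
              _ = Real.exp (c * ∑ p ∈ (Finset.range N).filter (fun p => p.Prime ∧ 3 < p), 1 / (p : ℝ) ^ 2) := by
                  rw [← Real.exp_sum, mul_sum]
                  congr 1
                  apply sum_congr rfl
                  intro p _
                  rw [mul_one_div]
              _ ≤ _ := by
                  apply Real.exp_le_exp.2
                  apply mul_le_mul_of_nonneg_left _ hc
                  rw [hZ]
                  exact hsum.sum_le_tsum _ (fun i _ => by positivity)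
    rw [Real.exp_neg, inv_eq_one_div, div_le_iff₀ (Real.exp_pos _)]
    exact h1
  have hbdd : BddBelow (Set.range (PrP f)) := ⟨Real.exp (-(c * Z)), by
    rintro x ⟨N, rfl⟩
    exact hlow N⟩
  refine ⟨⨅ N, PrP f N, lt_of_lt_of_le (Real.exp_pos _) (le_ciInf hlow), tendsto_atTop_ciInf hanti hbdd⟩

/-- the factor of quadruples -/
noncomputable def f4 (p : ℕ) : ℝ := (p : ℝ) ^ 3 * ((p : ℝ) - 4) / ((p : ℝ) - 1) ^ 4

/-- the factor of triples -/
noncomputable def f3 (p : ℕ) : ℝ := (p : ℝ) ^ 2 * ((p : ℝ) - 3) / ((p : ℝ) - 1) ^ 3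

theorem f4_lim : ∃ C : ℝ, 0 < C ∧ Tendsto (PrP f4) atTop (𝓝 C) := by
  apply prp_lim f4 27 (by norm_num)
  intro p hp h3
  have h5 : 5 ≤ p := by
    by_contra hcon
    have : p = 4 := by omega
    rw [this] at hp
    exact absurd hp (by norm_num)
  have hr : (5 : ℝ) ≤ p := by exact_mod_cast h5
  have h1 : 0 < (p : ℝ) - 1 := by linarith
  have h4 : 0 < (p : ℝ) - 4 := by linarith
  have h0 : 0 < (p : ℝ) := by linarith
  unfold f4
  refine ⟨by positivity, ?_, ?_⟩
  · rw [div_le_one (by positivity)]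
    nlinarith [sq_nonneg ((p : ℝ) - 1)]
  · have e : (p : ℝ) ^ 3 * ((p : ℝ) - 4) / ((p : ℝ) - 1) ^ 4 * (1 + 27 / (p : ℝ) ^ 2) =
        ((p : ℝ) * ((p : ℝ) - 4) * ((p : ℝ) ^ 2 + 27)) / ((p : ℝ) - 1) ^ 4 := by
      field_simp
    rw [e, one_le_div (by positivity)]
    nlinarith [sq_nonneg ((p : ℝ) - 5)]

theorem f3_lim : ∃ C : ℝ, 0 < C ∧ Tendsto (PrP f3) atTop (𝓝 C) := by
  apply prp_lim f3 7 (by norm_num)
  intro p hp h3
  have h5 : 5 ≤ p := by
    by_contra hcon
    have : p = 4 := by omega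
    rw [this] at hp
    exact absurd hp (by norm_num)
  have hr : (5 : ℝ) ≤ p := by exact_mod_cast h5
  have h1 : 0 < (p : ℝ) - 1 := by linarith
  have h4 : 0 < (p : ℝ) - 3 := by linarith
  have h0 : 0 < (p : ℝ) := by linarith
  unfold f3
  refine ⟨by positivity, ?_, ?_⟩
  · rw [div_le_one (by positivity)]
    nlinarith [sq_nonneg ((p : ℝ) - 1)]
  · have e : (p : ℝ) ^ 2 * ((p : ℝ) - 3) / ((p : ℝ) - 1) ^ 3 * (1 + 7 / (p : ℝ) ^ 2) =
        (((p : ℝ) - 3) * ((p : ℝ) ^ 2 + 7)) / ((p : ℝ) - 1) ^ 3 := by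
      field_simp
    rw [e, one_le_div (by positivity)]
    nlinarith [sq_nonneg ((p : ℝ) - 5)]

/-- the local factor -/
noncomputable def lf {r : ℕ} (a : Fin r → ℕ) (l : ℕ) : ℝ := ((rho (Good a) l : ℝ) / ((l : ℝ) - 1)) / (1 - 1 / (l : ℝ)) ^ r

lemma dens_ratio {r : ℕ} (a : Fin r → ℕ) (y : ℕ) (hy : 3 ≤ y) :
    dens (Good a) (pz y) / Vz y ^ r = lf a 2 * lf a 3 * PrP (lf a) (y + 1) := by
  have h1 : dens (Good a) (pz y) / Vz y ^ r = ∏ l ∈ pz y, lf a l := by
    unfold dens Vz lf
    rw [prod_div_distrib (f := fun l => (rho (Good a) l : ℝ) / ((l : ℝ) - 1)), prod_pow]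
  have h2 : pz y = insert 2 (insert 3 ((Finset.range (y + 1)).filter (fun p => p.Prime ∧ 3 < p))) := by
    ext l
    rw [mem_pz, mem_insert, mem_insert, mem_filter, mem_range]
    constructor
    · rintro ⟨g1, g2⟩
      have := g2.two_le
      by_cases h : 3 < l
      · exact Or.inr (Or.inr ⟨by omega, g2, h⟩)
      · omega
    · rintro (g | g | g)
      · subst g
        exact ⟨by omega, Nat.prime_two⟩
      · subst g
        exact ⟨by omega, Nat.prime_three⟩
      · exact ⟨by omega, g.2.1⟩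
  rw [h1, h2, prod_insert, prod_insert, ← mul_assoc]
  · rfl
  · rw [mem_filter]
    rintro ⟨_, _, h⟩
    omega
  · rw [mem_insert, mem_filter]
    rintro (h | ⟨_, _, h⟩)
    · omega
    · omega

lemma rho_of {r : ℕ} (a : Fin r → ℕ) (l : ℕ) (T : Finset ℕ) (hT : ∀ x, x ∈ T ↔ x < l ∧ Good a l x) : rho (Good a) l = T.card := by
  classical
  unfold rho
  congr 1
  ext x
  rw [mem_filter, mem_range, hT]

lemma mod_iff {l x c : ℕ} (hx : x < l) (h1 : 1 ≤ c) (h2 : c < l) : (x + c) % l = 0 ↔ x = l - c := by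
  constructor
  · intro h
    obtain ⟨m, hm⟩ := Nat.dvd_of_mod_eq_zero h
    have h3 : m < 2 := by
      by_contra hcon
      have : l * 2 ≤ l * m := Nat.mul_le_mul_left _ (by omega)
      omega
    have h4 : m ≠ 0 := by
      rintro rfl
      omega
    have h5 : m = 1 := by omega
    rw [h5] at hm
    omega
  · intro h
    have : x + c = l := by omega
    rw [this, Nat.mod_self]

/-- three classes -/
lemma rho_three (u w l : ℕ) (h0 : 1 ≤ u) (h1 : u < w) (h2 : w < l) : rho (Good ![u, w]) l = l - 3 := by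
  rw [rho_of ![u, w] l (range l \ {0, l - u, l - w})]
  · rw [card_sdiff_of_subset]
    · rw [card_range, card_insert_of_notMem, card_insert_of_notMem, card_singleton]
      · rw [mem_singleton]
        omega
      · rw [mem_insert, mem_singleton]
        omega
    · intro x hx
      rw [mem_insert, mem_insert, mem_singleton] at hx
      rw [mem_range]
      omega
  · intro x
    rw [Finset.mem_sdiff, mem_range, mem_insert, mem_insert, mem_singleton]
    unfold Good
    constructor
    · rintro ⟨g1, g2⟩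
      refine ⟨g1, by rw [Nat.mod_eq_of_lt g1]; tauto, fun j => ?_⟩
      fin_cases j
      · show (x + u) % l ≠ 0
        rw [Ne, mod_iff g1 h0 (by omega)]
        tauto
      · show (x + w) % l ≠ 0
        rw [Ne, mod_iff g1 (by omega) h2]
        tauto
    · rintro ⟨g1, g2, g3⟩
      have t1 : (x + u) % l ≠ 0 := g3 0
      have t2 : (x + w) % l ≠ 0 := g3 1
      rw [Ne, mod_iff g1 h0 (by omega)] at t1
      rw [Ne, mod_iff g1 (by omega) h2] at t2
      rw [Nat.mod_eq_of_lt g1] at g2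
      tauto

/-- four classes -/
lemma rho_four (u w z l : ℕ) (h0 : 1 ≤ u) (h1 : u < w) (h2 : w < z) (h3 : z < l) : rho (Good ![u, w, z]) l = l - 4 := by
  rw [rho_of ![u, w, z] l (range l \ {0, l - u, l - w, l - z})]
  · rw [card_sdiff_of_subset]
    · rw [card_range, card_insert_of_notMem, card_insert_of_notMem, card_insert_of_notMem, card_singleton]
      · rw [mem_singleton]
        omega
      · rw [mem_insert, mem_singleton]
        omega
      · rw [mem_insert, mem_insert, mem_singleton]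
        omega
    · intro x hx
      rw [mem_insert, mem_insert, mem_insert, mem_singleton] at hx
      rw [mem_range]
      omega
  · intro x
    rw [Finset.mem_sdiff, mem_range, mem_insert, mem_insert, mem_insert, mem_singleton]
    unfold Good
    constructor
    · rintro ⟨g1, g2⟩
      refine ⟨g1, by rw [Nat.mod_eq_of_lt g1]; tauto, fun j => ?_⟩
      fin_cases j
      · show (x + u) % l ≠ 0
        rw [Ne, mod_iff g1 h0 (by omega)]
        tauto
      · show (x + w) % l ≠ 0
        rw [Ne, mod_iff g1 (by omega) (by omega)]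
        tauto
      · show (x + z) % l ≠ 0
        rw [Ne, mod_iff g1 (by omega) h3]
        tauto
    · rintro ⟨g1, g2, g3⟩
      have t1 : (x + u) % l ≠ 0 := g3 0
      have t2 : (x + w) % l ≠ 0 := g3 1
      have t3 : (x + z) % l ≠ 0 := g3 2
      rw [Ne, mod_iff g1 h0 (by omega)] at t1
      rw [Ne, mod_iff g1 (by omega) (by omega)] at t2
      rw [Ne, mod_iff g1 (by omega) h3] at t3
      rw [Nat.mod_eq_of_lt g1] at g2
      tauto

/-- finite check -/
lemma rho_small {r : ℕ} (a : Fin r → ℕ) (l : ℕ) :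
    rho (Good a) l = ((range l).filter (fun x => x % l ≠ 0 ∧ ∀ j, (x + a j) % l ≠ 0)).card := by
  apply rho_of
  intro x
  rw [mem_filter, mem_range]
  rfl

lemma lf4 {a : Fin 3 → ℕ} {l : ℕ} (hl : 5 ≤ l) (h : rho (Good a) l = l - 4) : lf a l = f4 l := by
  unfold lf f4
  rw [h, Nat.cast_sub (by omega)]
  have h1 : (5 : ℝ) ≤ l := by exact_mod_cast hl
  have h2 : (l : ℝ) - 1 ≠ 0 := by linarith
  have h3 : (l : ℝ) ≠ 0 := by linarith
  have h4 : 1 - 1 / (l : ℝ) = ((l : ℝ) - 1) / l := by field_simp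
  rw [h4]
  field_simp
  push_cast
  ring

lemma lf3 {a : Fin 2 → ℕ} {l : ℕ} (hl : 5 ≤ l) (h : rho (Good a) l = l - 3) : lf a l = f3 l := by
  unfold lf f3
  rw [h, Nat.cast_sub (by omega)]
  have h1 : (5 : ℝ) ≤ l := by exact_mod_cast hl
  have h2 : (l : ℝ) - 1 ≠ 0 := by linarith
  have h3 : (l : ℝ) ≠ 0 := by linarith
  have h4 : 1 - 1 / (l : ℝ) = ((l : ℝ) - 1) / l := by field_simp
  rw [h4]
  field_simp
  push_cast
  ring

lemma prime_cases {l : ℕ} (hl : l.Prime) (h : 3 < l) : l = 5 ∨ l = 7 ∨ 11 ≤ l := by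
  by_contra hcon
  push Not at hcon
  obtain ⟨h5, h7, h11⟩ := hcon
  have : l = 4 ∨ l = 6 ∨ l = 8 ∨ l = 9 ∨ l = 10 := by omega
  rcases this with h | h | h | h | h <;> subst h <;> norm_num at hl

/-- the shape (0, 2, 6, 8) -/
theorem shape268 (C : ℝ) (hC : Tendsto (PrP f4) atTop (𝓝 C)) :
    Tendsto (fun y : ℕ => dens (Good ![2, 6, 8]) (pz y) / Vz y ^ 3) atTop (𝓝 (27 / 2 * C)) := by
  have h1 : Tendsto (fun y : ℕ => 27 / 2 * PrP f4 (y + 1)) atTop (𝓝 (27 / 2 * C)) := (hC.comp (tendsto_add_atTop_nat 1)).const_mul _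
  apply h1.congr'
  filter_upwards [eventually_ge_atTop 3] with y hy
  rw [dens_ratio ![2, 6, 8] y hy]
  have e2 : lf ![2, 6, 8] 2 = 8 := by
    unfold lf
    rw [rho_small, show ((range 2).filter (fun x => x % 2 ≠ 0 ∧ ∀ j, (x + ![2, 6, 8] j) % 2 ≠ 0)).card = 1 by decide]
    norm_num
  have e3 : lf ![2, 6, 8] 3 = 27 / 16 := by
    unfold lf
    rw [rho_small, show ((range 3).filter (fun x => x % 3 ≠ 0 ∧ ∀ j, (x + ![2, 6, 8] j) % 3 ≠ 0)).card = 1 by decide]
    norm_num
  have e4 : PrP (lf ![2, 6, 8]) (y + 1) = PrP f4 (y + 1) := by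
    unfold PrP
    apply prod_congr rfl
    intro l hl
    rw [mem_filter] at hl
    rcases prime_cases hl.2.1 hl.2.2 with h | h | h
    · subst h
      apply lf4 le_rfl
      rw [rho_small]
      decide
    · subst h
      apply lf4 (by norm_num)
      rw [rho_small]
      decide
    · exact lf4 (by omega) (rho_four 2 6 8 l (by norm_num) (by norm_num) (by norm_num) (by omega))
  rw [e2, e3, e4]
  ring

/-- the shape (0, 4, 6, 10) -/
theorem shape4610 (C : ℝ) (hC : Tendsto (PrP f4) atTop (𝓝 C)) :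
    Tendsto (fun y : ℕ => dens (Good ![4, 6, 10]) (pz y) / Vz y ^ 3) atTop (𝓝 (27 * C)) := by
  have h1 : Tendsto (fun y : ℕ => 27 * PrP f4 (y + 1)) atTop (𝓝 (27 * C)) := (hC.comp (tendsto_add_atTop_nat 1)).const_mul _
  apply h1.congr'
  filter_upwards [eventually_ge_atTop 5] with y hy
  rw [dens_ratio ![4, 6, 10] y (by omega)]
  have e2 : lf ![4, 6, 10] 2 = 8 := by
    unfold lf
    rw [rho_small, show ((range 2).filter (fun x => x % 2 ≠ 0 ∧ ∀ j, (x + ![4, 6, 10] j) % 2 ≠ 0)).card = 1 by decide]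
    norm_num
  have e3 : lf ![4, 6, 10] 3 = 27 / 16 := by
    unfold lf
    rw [rho_small, show ((range 3).filter (fun x => x % 3 ≠ 0 ∧ ∀ j, (x + ![4, 6, 10] j) % 3 ≠ 0)).card = 1 by decide]
    norm_num
  have e5 : lf ![4, 6, 10] 5 = 2 * f4 5 := by
    unfold lf f4
    rw [rho_small, show ((range 5).filter (fun x => x % 5 ≠ 0 ∧ ∀ j, (x + ![4, 6, 10] j) % 5 ≠ 0)).card = 2 by decide]
    norm_num
  have hmem : 5 ∈ (Finset.range (y + 1)).filter (fun p => p.Prime ∧ 3 < p) := by
    rw [mem_filter, mem_range]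
    exact ⟨by omega, by norm_num, by norm_num⟩
  have e4 : PrP (lf ![4, 6, 10]) (y + 1) = 2 * PrP f4 (y + 1) := by
    unfold PrP
    rw [← mul_prod_erase _ _ hmem, ← mul_prod_erase _ f4 hmem, e5, mul_assoc]
    congr 2
    apply prod_congr rfl
    intro l hl
    rw [mem_erase, mem_filter] at hl
    rcases prime_cases hl.2.2.1 hl.2.2.2 with h | h | h
    · exact absurd h hl.1
    · subst h
      apply lf4 (by norm_num)
      rw [rho_small]
      decide
    · exact lf4 (by omega) (rho_four 4 6 10 l (by norm_num) (by norm_num) (by norm_num) (by omega))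
  rw [e2, e3, e4]
  ring

/-- the shape (0, 2, 6) -/
theorem shape26 (C : ℝ) (hC : Tendsto (PrP f3) atTop (𝓝 C)) :
    Tendsto (fun y : ℕ => dens (Good ![2, 6]) (pz y) / Vz y ^ 2) atTop (𝓝 (9 / 2 * C)) := by
  have h1 : Tendsto (fun y : ℕ => 9 / 2 * PrP f3 (y + 1)) atTop (𝓝 (9 / 2 * C)) := (hC.comp (tendsto_add_atTop_nat 1)).const_mul _
  apply h1.congr'
  filter_upwards [eventually_ge_atTop 3] with y hy
  rw [dens_ratio ![2, 6] y hy]
  have e2 : lf ![2, 6] 2 = 4 := by
    unfold lf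
    rw [rho_small, show ((range 2).filter (fun x => x % 2 ≠ 0 ∧ ∀ j, (x + ![2, 6] j) % 2 ≠ 0)).card = 1 by decide]
    norm_num
  have e3 : lf ![2, 6] 3 = 9 / 8 := by
    unfold lf
    rw [rho_small, show ((range 3).filter (fun x => x % 3 ≠ 0 ∧ ∀ j, (x + ![2, 6] j) % 3 ≠ 0)).card = 1 by decide]
    norm_num
  have e4 : PrP (lf ![2, 6]) (y + 1) = PrP f3 (y + 1) := by
    unfold PrP
    apply prod_congr rfl
    intro l hl
    rw [mem_filter] at hl
    rcases prime_cases hl.2.1 hl.2.2 with h | h | h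
    · subst h
      apply lf3 le_rfl
      rw [rho_small]
      decide
    · exact lf3 (by omega) (rho_three 2 6 l (by norm_num) (by norm_num) (by omega))
    · exact lf3 (by omega) (rho_three 2 6 l (by norm_num) (by norm_num) (by omega))
  rw [e2, e3, e4]
  ring

/-- the shape (0, 4, 6) -/
theorem shape46 (C : ℝ) (hC : Tendsto (PrP f3) atTop (𝓝 C)) :
    Tendsto (fun y : ℕ => dens (Good ![4, 6]) (pz y) / Vz y ^ 2) atTop (𝓝 (9 / 2 * C)) := by
  have h1 : Tendsto (fun y : ℕ => 9 / 2 * PrP f3 (y + 1)) atTop (𝓝 (9 / 2 * C)) := (hC.comp (tendsto_add_atTop_nat 1)).const_mul _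
  apply h1.congr'
  filter_upwards [eventually_ge_atTop 3] with y hy
  rw [dens_ratio ![4, 6] y hy]
  have e2 : lf ![4, 6] 2 = 4 := by
    unfold lf
    rw [rho_small, show ((range 2).filter (fun x => x % 2 ≠ 0 ∧ ∀ j, (x + ![4, 6] j) % 2 ≠ 0)).card = 1 by decide]
    norm_num
  have e3 : lf ![4, 6] 3 = 9 / 8 := by
    unfold lf
    rw [rho_small, show ((range 3).filter (fun x => x % 3 ≠ 0 ∧ ∀ j, (x + ![4, 6] j) % 3 ≠ 0)).card = 1 by decide]
    norm_num
  have e4 : PrP (lf ![4, 6]) (y + 1) = PrP f3 (y + 1) := by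
    unfold PrP
    apply prod_congr rfl
    intro l hl
    rw [mem_filter] at hl
    rcases prime_cases hl.2.1 hl.2.2 with h | h | h
    · subst h
      apply lf3 le_rfl
      rw [rho_small]
      decide
    · exact lf3 (by omega) (rho_three 4 6 l (by norm_num) (by norm_num) (by omega))
    · exact lf3 (by omega) (rho_three 4 6 l (by norm_num) (by norm_num) (by omega))
  rw [e2, e3, e4]
  ring

end Pool.Agent.Run7.h414.HL
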