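import Pool.Agent.Run7.h414.HL.A2
import Pool.Agent.Run7.h672.XC.X12
import Pool.Agent.N625.PT.X7

set_option autoImplicit false

/-! Asymptotics for tuples of primes whose shifts are changed by random multiples of a small primorial. -/

namespace Pool.Agent.Run7.h414.HL
open Finset Filter
open scoped Topology
open Pool.Agent.H373R2.T7 (pz mem_pz Vz Vz_pos Vz_le_one ev_L')
open Pool.Agent.N625.PT (Nm)
open Pool.Agent.Run7.h672.XC (RCls tuple_law)

/-- the primes `p ≤ X` such that all the `p + a j + N j` are primes -/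
def Tup {r : ℕ} (a : Fin r → ℕ) (N : Fin r → ℤ) (X : ℕ) : Finset ℕ :=
  (Icc 1 X).filter (fun p : ℕ => p.Prime ∧ ∀ j, ((p : ℤ) + a j + N j).toNat.Prime)

lemma cop_of {a D : ℕ} {N : ℤ} (ha : 1 ≤ a) (hN : 0 < N) (hDN : (D : ℤ) ∣ N) (hp : (N + (a : ℤ)).toNat.Prime) :
    a.Coprime D := by
  by_contra hcop
  obtain ⟨q, hqp, hqa, hqb⟩ := Nat.Prime.not_coprime_iff_dvd.1 hcop
  have hD : 1 ≤ D := by
    rcases Nat.eq_zero_or_pos D with h | h
    · rw [h, Nat.cast_zero, zero_dvd_iff] at hDN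
      omega
    · exact h
  have f1 : (q : ℤ) ∣ N + (a : ℤ) := dvd_add ((by exact_mod_cast hqb : (q : ℤ) ∣ (D : ℤ)).trans hDN) (by exact_mod_cast hqa)
  have f0 : (1 : ℤ) ≤ a := by exact_mod_cast ha
  have f2 : (0 : ℤ) ≤ N + (a : ℤ) := by linarith
  have f3 : q ∣ (N + (a : ℤ)).toNat := by
    rw [← Int.natCast_dvd_natCast, Int.toNat_of_nonneg f2]
    exact f1
  have f4 := (Nat.prime_dvd_prime_iff_eq hqp hp).1 f3
  have f5 : (q : ℤ) ≤ D := by exact_mod_cast Nat.le_of_dvd (by omega) hqb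
  have f6 : (D : ℤ) ≤ N := Int.le_of_dvd hN hDN
  have f7 : (q : ℤ) = N + (a : ℤ) := by rw [f4, Int.toNat_of_nonneg f2]
  linarith

lemma mul_one_close {x y α β : ℝ} (hx : |x - 1| ≤ α) (hy : |y - 1| ≤ β) : |x * y - 1| ≤ α * (1 + β) + β := by
  have h1 : x * y - 1 = (x - 1) * y + (y - 1) := by ring
  have hα : 0 ≤ α := (abs_nonneg _).trans hx
  have h2 : |y| ≤ 1 + β := by
    have := abs_le.1 hy
    rw [abs_le]
    constructor
    · linarith
    · linarith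
  rw [h1]
  refine (abs_add_le _ _).trans (add_le_add ?_ hy)
  rw [abs_mul]
  exact mul_le_mul hx h2 (abs_nonneg _) hα

lemma four_close {x y z w δ : ℝ} (hδ : 0 ≤ δ) (hδ1 : δ ≤ 1) (hx : |x - 1| ≤ δ) (hy : |y - 1| ≤ δ) (hz : |z - 1| ≤ δ)
    (hw : |w - 1| ≤ δ) : |x * y * (z * w) - 1| ≤ 15 * δ := by
  have h1 : |x * y - 1| ≤ 3 * δ := (mul_one_close hx hy).trans (by nlinarith)
  have h2 : |z * w - 1| ≤ 3 * δ := (mul_one_close hz hw).trans (by nlinarith)
  exact (mul_one_close h1 h2).trans (by nlinarith)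

lemma pow_close (r : ℕ) (δ : ℝ) (hδ : 0 < δ) : ∃ ρ : ℝ, 0 < ρ ∧ ∀ x : ℝ, |x - 1| ≤ ρ → |x ^ r - 1| ≤ δ := by
  have h := (continuous_pow (M := ℝ) r).continuousAt (x := 1)
  rw [Metric.continuousAt_iff] at h
  obtain ⟨ρ, hρ, h1⟩ := h δ hδ
  refine ⟨ρ / 2, by linarith, fun x hx => ?_⟩
  have h2 := h1 (x := x) (by rw [Real.dist_eq]; linarith)
  rw [Real.dist_eq, one_pow] at h2
  exact h2.le

/-- the logarithm of `X` -/
lemma log_close (b C : ℕ) (hb : 2 ≤ b) (ρ : ℝ) (hρ : 0 < ρ) : ∃ k₀ : ℕ, ∀ k : ℕ, k₀ ≤ k → ∀ X : ℕ, b ^ k ≤ X * k ^ C →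
    X ≤ b ^ k * k ^ C → |Real.log X / (k * Real.log b) - 1| ≤ ρ := by
  obtain ⟨n1, h1⟩ := ev_pow 1 1 (C / (ρ * Real.log b)) one_pos
  refine ⟨max n1 2, fun k hk X hX1 hX2 => ?_⟩
  have e1 := h1 k (by omega)
  have hkr : (2 : ℝ) ≤ k := by exact_mod_cast (by omega : 2 ≤ k)
  have hbr : (2 : ℝ) ≤ b := by exact_mod_cast hb
  have hk0 : (0 : ℝ) < k := by linarith
  have hb0 : (0 : ℝ) < b := by linarith
  have hlogb : 0 < Real.log b := Real.log_pos (by linarith)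
  rw [Real.rpow_one, pow_one, div_mul_eq_mul_div, div_le_iff₀ (by positivity)] at e1
  have hX0 : 0 < X := by
    rcases Nat.eq_zero_or_pos X with h | h
    · rw [h, zero_mul] at hX1
      have : 0 < b ^ k := pow_pos (by omega) _
      omega
    · exact h
  have hXr : (0 : ℝ) < X := by exact_mod_cast hX0
  have g1 : k * Real.log b ≤ Real.log X + C * Real.log k := by
    have : Real.log ((b : ℝ) ^ k) ≤ Real.log ((X : ℝ) * (k : ℝ) ^ C) := by
      apply Real.log_le_log (by positivity)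
      exact_mod_cast hX1
    rwa [Real.log_pow, Real.log_mul hXr.ne' (by positivity), Real.log_pow] at this
  have g2 : Real.log X ≤ k * Real.log b + C * Real.log k := by
    have : Real.log (X : ℝ) ≤ Real.log ((b : ℝ) ^ k * (k : ℝ) ^ C) := by
      apply Real.log_le_log hXr
      exact_mod_cast hX2
    rwa [Real.log_mul (by positivity) (by positivity), Real.log_pow, Real.log_pow] at this
  have hkb : 0 < k * Real.log b := by positivity
  rw [div_sub_one hkb.ne', abs_div, abs_of_pos hkb, div_le_iff₀ hkb, abs_le]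
  have e2 : C * Real.log k ≤ ρ * (k * Real.log b) := by linarith
  constructor
  · linarith
  · linarith

set_option maxHeartbeats 1000000 in
theorem hl_cls {b L T : ℕ} {𝒞 : ℕ → (ℕ → ℝ) → Prop} (hcls : RCls b L T 𝒞) (r : ℕ) (κ : Fin r → ℤ) (hκ : ∀ j, κ j ≠ 0)
    (a : Fin r → ℕ) (ha1 : ∀ j, 1 ≤ a j) (hadm : ∀ l : ℕ, l.Prime → ∃ x : ℕ, x < l ∧ Good a l x) (S : ℝ) (hS : 0 < S)
    (hlim : Tendsto (fun y : ℕ => dens (Good a) (pz y) / Vz y ^ r) atTop (𝓝 S))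
    (B J C K₁ : ℕ) (θ : ℝ) (hθ : 0 < θ) (ε : ℝ) (hε : 0 < ε) (hε1 : ε ≤ 1) :
    ∃ k₀ : ℕ, ∀ k : ℕ, k₀ ≤ k → ∀ p : Fin r → ℕ → ℝ, (∀ j, 𝒞 k (p j)) →
    ∀ y : ℕ, θ * Real.log k ≤ y → y ≤ K₁ * Real.log k → ∀ c : Fin r → ℤ, (∀ j, |c j| ≤ B * (b : ℤ) ^ k) →
    ∀ h : Fin r → ℕ, (∀ j, 1 ≤ h j ∧ h j ≤ k ^ J) → ∀ X : ℕ, b ^ k ≤ X * k ^ C → X ≤ b ^ k * k ^ C →
    ∑ v ∈ Fintype.piFinset (fun _ : Fin r => range (b ^ k)),
      (if (∀ j, 0 < Nm y (h j) (c j) (κ j) (v j)) →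
        |((Tup a (fun j => Nm y (h j) (c j) (κ j) (v j)) X).card : ℝ) * (Real.log X ^ (r + 1) / X) - S| ≤ ε
        then 0 else ∏ j, p j (v j)) ≤ ε := by
  classical
  have hb := hcls.two
  obtain ⟨δ, hδ⟩ : ∃ δ : ℝ, δ = min (ε / (15 * S)) (ε / 2) := ⟨_, rfl⟩
  have hδ0 : 0 < δ := by rw [hδ]; exact lt_min (by positivity) (by positivity)
  have hδ2 : δ ≤ ε / 2 := by rw [hδ]; exact min_le_right _ _
  have hδ1 : δ ≤ 1 / 2 := by linarith
  have hδS : S * (15 * δ) ≤ ε := by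
    have : δ ≤ ε / (15 * S) := by rw [hδ]; exact min_le_left _ _
    rw [le_div_iff₀ (by positivity)] at this
    linarith
  obtain ⟨A, hA⟩ : ∃ A, A = 2 * K₁ + 4 := ⟨_, rfl⟩
  obtain ⟨k1, h1⟩ := tuple_law hcls r κ hκ B J A (C + 1) K₁ θ hθ δ hδ0 (by linarith)
  obtain ⟨k2, h2⟩ := adm_count a ha1 hadm b K₁ J C hb θ hθ δ hδ0
  obtain ⟨k3, h3⟩ := Pool.Agent.N625.PT.X_large b C hb
  obtain ⟨k4, h4⟩ := Pool.Agent.N625.PT.log_X b C hb
  obtain ⟨k5, h5⟩ := Pool.Agent.N625.PT.log_low b C hb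
  obtain ⟨ρ, hρ0, hρ⟩ := pow_close r δ hδ0
  obtain ⟨k6, h6⟩ := log_close b C hb ρ hρ0
  rw [Metric.tendsto_atTop] at hlim
  obtain ⟨Y0, hY0⟩ := hlim (S * δ) (by positivity)
  obtain ⟨k7, h7⟩ := ev_L' ((Y0 + 1) / θ)
  obtain ⟨amax, hamax⟩ : ∃ m : ℕ, m = univ.sup a := ⟨_, rfl⟩
  refine ⟨max (max (max k1 k2) (max k3 k4)) (max (max k5 k6) (max k7 (max 4 amax))), fun k hk p hp y hy1 hy2 c hc h hh X hX1 hX2 => ?_⟩
  have hk4 : 4 ≤ k := by omega
  have hkr : (4 : ℝ) ≤ k := by exact_mod_cast hk4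
  have hk0 : (0 : ℝ) < k := by linarith
  have hbr : (2 : ℝ) ≤ b := by exact_mod_cast hb
  have hlogb : 0 < Real.log b := Real.log_pos (by linarith)
  have hkX := h3 k (by omega) X hX1
  have hlX := h4 k (by omega) X hX2
  have hlow := h5 k (by omega) X hX1
  have hlc := h6 k (by omega) X hX1 hX2
  have hX0 : (0 : ℝ) < X := by exact_mod_cast (by omega : 0 < X)
  have hL0 : 0 < Real.log X := by linarith
  have hyY : Y0 ≤ y := by
    have := h7 k (by omega)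
    rw [div_le_iff₀ hθ] at this
    have h' : (Y0 : ℝ) + 1 ≤ y := by linarith
    have : Y0 + 1 ≤ y := by exact_mod_cast h'
    omega
  have hlim2 := hY0 y hyY
  rw [Real.dist_eq] at hlim2
  have hadmc := h2 k (by omega) y hy1 hy2 h hh X hX1
  have hSp : ∀ l ∈ pz y, l.Prime := fun l hl => by rw [mem_pz] at hl; exact hl.2
  have hd0 := dens_pos (Good a) (pz y) hSp (fun l hl => hadm l (hSp l hl))
  obtain ⟨dn, hdn⟩ : ∃ dn, dn = dens (Good a) (pz y) := ⟨_, rfl⟩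
  rw [← hdn] at hlim2 hadmc hd0
  obtain ⟨I, hI⟩ : ∃ I, I = AdmT a (fun j => primorial y * h j) X := ⟨_, rfl⟩
  rw [← hI] at hadmc
  have hM0 : 0 < dn * (X / Real.log X) := by positivity
  have hI1 : dn * (X / Real.log X) * (1 - δ) ≤ I.card := by
    have := (abs_le.1 hadmc).1
    linarith
  have hI0 : (0 : ℝ) < I.card := lt_of_lt_of_le (mul_pos hM0 (by linarith)) hI1
  -- the density of the admissible numbers
  have hdlow : 1 / (k : ℝ) ^ (2 * K₁) ≤ dn := by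
    rw [hdn, dens_eq (Good a) (pz y) hSp, prim_eq]
    have t1 : (1 : ℝ) ≤ ((∏ l ∈ pz y, rho (Good a) l : ℕ) : ℝ) := by
      have : 1 ≤ ∏ l ∈ pz y, rho (Good a) l :=
        Nat.one_le_iff_ne_zero.2 (prod_ne_zero_iff.2 fun l hl => by have := rho_pos (Good a) l (hadm l (hSp l hl)); omega)
      exact_mod_cast this
    have hprim : primorial y ≤ k ^ (2 * K₁) := by
      have := Pool.Agent.N625.PT.mult_small K₁ 0 k y 1 (by omega) hy2 (by rw [pow_zero])
      simpa using this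
    have t2 : ((Nat.totient (primorial y) : ℕ) : ℝ) ≤ (k : ℝ) ^ (2 * K₁) := by
      exact_mod_cast (Nat.totient_le _).trans hprim
    have t3 : (0 : ℝ) < (Nat.totient (primorial y) : ℕ) := by exact_mod_cast Nat.totient_pos.2 (primorial_pos y)
    exact div_le_div₀ (by linarith) t1 t3 t2
  have hden : ((2 * X : ℕ) : ℝ) ≤ I.card * (k : ℝ) ^ A := by
    have e1 : (X : ℝ) / (k : ℝ) ^ (2 * K₁ + 2) ≤ dn * (X / Real.log X) := by
      rw [pow_add, mul_comm ((k : ℝ) ^ (2 * K₁)), ← div_div]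
      calc (X : ℝ) / (k : ℝ) ^ 2 / (k : ℝ) ^ (2 * K₁) = 1 / (k : ℝ) ^ (2 * K₁) * (X / (k : ℝ) ^ 2) := by field_simp
        _ ≤ dn * (X / Real.log X) := by
            apply mul_le_mul hdlow _ (by positivity) hd0.le
            exact div_le_div_of_nonneg_left hX0.le hL0 hlX
    have e2 : (X : ℝ) / (k : ℝ) ^ (2 * K₁ + 2) / 2 ≤ I.card := by
      refine le_trans ?_ hI1
      have := mul_le_mul_of_nonneg_left (by linarith : (1 : ℝ) / 2 ≤ 1 - δ) hM0.le
      linarith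
    rw [div_div, div_le_iff₀ (by positivity)] at e2
    push_cast
    calc 2 * (X : ℝ) ≤ 2 * (I.card * ((k : ℝ) ^ (2 * K₁ + 2) * 2)) := by linarith
      _ = I.card * ((k : ℝ) ^ (2 * K₁ + 2) * 4) := by ring
      _ ≤ I.card * ((k : ℝ) ^ (2 * K₁ + 2) * (k : ℝ) ^ 2) := by
          apply mul_le_mul_of_nonneg_left _ hI0.le
          apply mul_le_mul_of_nonneg_left _ (by positivity)
          nlinarith
      _ = _ := by rw [hA, ← pow_add]
  have hIm : ∀ i ∈ I, 1 ≤ i ∧ i ≤ X ∧ i.Prime ∧ ∀ j, (i + a j).Coprime (primorial y * h j) := by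
    intro i hi
    rw [hI] at hi
    unfold AdmT at hi
    rw [mem_filter, mem_Icc] at hi
    exact ⟨hi.1.1, hi.1.2, hi.2.1, hi.2.2⟩
  have haj : ∀ j, a j ≤ X := by
    intro j
    have e1 : a j ≤ amax := by rw [hamax]; exact le_sup (f := a) (mem_univ j)
    omega
  have hlaw := h1 k (by omega) p hp y hy1 hy2 c hc h hh (2 * X) (by
      refine hX1.trans ?_
      exact Nat.mul_le_mul (by omega) (Nat.pow_le_pow_right (by omega) (by omega))) (by
      calc 2 * X ≤ k * (b ^ k * k ^ C) := Nat.mul_le_mul (by omega) hX2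
        _ = b ^ k * k ^ (C + 1) := by rw [pow_succ k C]; ring) I (fun j i => i + a j) (by
      intro j i _ i' _ hii
      simp only at hii
      omega) (by
      intro j i hi
      obtain ⟨g1, g2, g3, g4⟩ := hIm i hi
      have := haj j
      exact ⟨by omega, by omega, g4 j⟩) hden (fun _ => 1) (fun _ => Or.inl rfl)
  refine le_trans (sum_le_sum fun v _ => ?_) (hlaw.trans (by linarith))
  have hw0 : 0 ≤ ∏ j, p j (v j) := prod_nonneg fun j _ => (hcls.nonneg _ _ (hp j)) _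
  by_cases hgood : (∀ j, 0 < Nm y (h j) (c j) (κ j) (v j)) →
        |((Tup a (fun j => Nm y (h j) (c j) (κ j) (v j)) X).card : ℝ) * (Real.log X ^ (r + 1) / X) - S| ≤ ε
  · rw [if_pos hgood]
    split_ifs
    · exact le_rfl
    · exact hw0
  · rw [if_neg hgood, if_neg]
    intro hall
    apply hgood
    intro hpos
    have hq := hall (by
      intro j i hi
      have := hpos j
      positivity) r le_rfl
    have hDN : ∀ j, ((primorial y * h j : ℕ) : ℤ) ∣ Nm y (h j) (c j) (κ j) (v j) := fun j => by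
      unfold Nm
      exact dvd_mul_right _ _
    have hset : Tup a (fun j => Nm y (h j) (c j) (κ j) (v j)) X = I.filter (fun i => ∀ j : Fin r, (j : ℕ) < r →
        (Nm y (h j) (c j) (κ j) (v j) + 1 * ((i + a j : ℕ) : ℤ)).toNat.Prime) := by
      ext i
      unfold Tup
      rw [mem_filter, mem_filter, mem_Icc]
      have e0 : ∀ j, (i : ℤ) + a j + Nm y (h j) (c j) (κ j) (v j) = Nm y (h j) (c j) (κ j) (v j) + 1 * ((i + a j : ℕ) : ℤ) := by
        intro j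
        push_cast
        ring
      constructor
      · rintro ⟨g1, g2, g3⟩
        refine ⟨?_, fun j _ => by rw [← e0]; exact g3 j⟩
        rw [hI]
        unfold AdmT
        rw [mem_filter, mem_Icc]
        refine ⟨g1, g2, fun j => ?_⟩
        have g4 := g3 j
        rw [e0, one_mul] at g4
        exact cop_of (by omega) (hpos j) (hDN j) g4
      · rintro ⟨g1, g2⟩
        obtain ⟨q1, q2, q3, _⟩ := hIm i g1
        exact ⟨⟨q1, q2⟩, q3, fun j => by rw [e0]; exact g2 j j.2⟩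
    rw [hset]
    obtain ⟨G, hG⟩ : ∃ G : ℝ, G = ((I.filter (fun i => ∀ j : Fin r, (j : ℕ) < r →
        (Nm y (h j) (c j) (κ j) (v j) + 1 * ((i + a j : ℕ) : ℤ)).toNat.Prime)).card : ℝ) := ⟨_, rfl⟩
    rw [← hG] at hq ⊢
    have hV0 := Vz_pos y
    obtain ⟨V, hV⟩ : ∃ V, V = Vz y := ⟨_, rfl⟩
    rw [← hV] at hq hlim2 hV0
    obtain ⟨lb, hlb⟩ : ∃ lb, lb = (k : ℝ) * Real.log b := ⟨_, rfl⟩
    rw [← hlb] at hq hlc
    have hlb0 : 0 < lb := by rw [hlb]; positivity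
    obtain ⟨Lg, hLg⟩ : ∃ Lg, Lg = Real.log X := ⟨_, rfl⟩
    rw [← hLg] at hlc hL0 hadmc hM0 ⊢
    obtain ⟨m, hm⟩ : ∃ m : ℝ, m = I.card := ⟨_, rfl⟩
    rw [← hm] at hq hadmc hI0
    have R1 : |m / (dn * (X / Lg)) - 1| ≤ δ := by
      rw [div_sub_one hM0.ne', abs_div, abs_of_pos hM0, div_le_iff₀ hM0]
      exact hadmc
    have hQ0 : 0 < m / (V * lb) ^ r := by positivity
    have R2 : |G / (m / (V * lb) ^ r) - 1| ≤ δ := by
      rw [div_sub_one hQ0.ne', abs_div, abs_of_pos hQ0, div_le_iff₀ hQ0]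
      exact hq
    have R3 := hρ _ hlc
    have R4 : |dn / V ^ r / S - 1| ≤ δ := by
      rw [div_sub_one hS.ne', abs_div, abs_of_pos hS, div_le_iff₀ hS]
      linarith
    have hall4 := four_close hδ0.le (by linarith) R1 R2 R3 R4
    have hprod : G * (Lg ^ (r + 1) / X) = S * (m / (dn * (X / Lg)) * (G / (m / (V * lb) ^ r)) * ((Lg / lb) ^ r * (dn / V ^ r / S))) := by
      rw [mul_pow, div_pow, pow_succ]
      field_simp
    rw [hprod]
    have e1 : S * (m / (dn * (X / Lg)) * (G / (m / (V * lb) ^ r)) * ((Lg / lb) ^ r * (dn / V ^ r / S))) - S =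
        S * (m / (dn * (X / Lg)) * (G / (m / (V * lb) ^ r)) * ((Lg / lb) ^ r * (dn / V ^ r / S)) - 1) := by ring
    rw [e1, abs_mul, abs_of_pos hS]
    exact (mul_le_mul_of_nonneg_left hall4 hS.le).trans hδS

end Pool.Agent.Run7.h414.HL
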