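import Pool.Agent.N625.PT.X5
import Pool.Agent.H373R2.T7.Crt
import Pool.Agent.H373R2.T7.LamMaj

set_option autoImplicit false

/-! Primes in prescribed residue classes modulo the primes of a set with a small product. -/

namespace Pool.Agent.Run7.h414.HL
open Finset
open Pool.Agent.H373R2.T7 (ev_L' lam_ap crt_aux totient_prod)
open Pool.Agent.N625.PT (pp_one)

/-- powers of the logarithm -/
lemma ev_pow (n : ℕ) (r D : ℝ) (hr : 0 < r) : ∃ X₀ : ℕ, ∀ X : ℕ, X₀ ≤ X → D * Real.log X ^ n ≤ (X : ℝ) ^ r := by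
  have h1 := (isLittleO_log_rpow_rpow_atTop (n : ℝ) hr).comp_tendsto (tendsto_natCast_atTop_atTop (R := ℝ))
  have h2 := h1.def (c := 1 / (|D| + 1)) (by positivity)
  rw [Filter.eventually_atTop] at h2
  obtain ⟨X₀, h3⟩ := h2
  refine ⟨X₀, fun X hX => ?_⟩
  have h4 := h3 X hX
  simp only [Function.comp] at h4
  rw [Real.rpow_natCast, Real.norm_eq_abs, Real.norm_eq_abs, abs_of_nonneg (Real.rpow_nonneg (Nat.cast_nonneg X) r)] at h4
  have h5 : |Real.log X ^ n| * (|D| + 1) ≤ (X : ℝ) ^ r := by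
    rw [one_div, inv_mul_eq_div, le_div_iff₀ (by positivity)] at h4
    exact h4
  calc D * Real.log X ^ n ≤ |D * Real.log X ^ n| := le_abs_self _
    _ = |Real.log X ^ n| * |D| := by rw [abs_mul, mul_comm]
    _ ≤ |Real.log X ^ n| * (|D| + 1) := mul_le_mul_of_nonneg_left (by linarith) (abs_nonneg _)
    _ ≤ _ := h5

open Classical in
/-- the primes up to `X` in a class modulo `q` and in prescribed classes modulo the primes of `S` -/
noncomputable def PS (A : ℕ → ℕ → Prop) (S : Finset ℕ) (q c X : ℕ) : Finset ℕ :=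
  (Icc 1 X).filter (fun p : ℕ => p.Prime ∧ p ≡ c [MOD q] ∧ ∀ l ∈ S, A l (p % l))

open Classical in
/-- the number of the prescribed classes -/
noncomputable def rho (A : ℕ → ℕ → Prop) (l : ℕ) : ℕ := ((range l).filter (fun a => A l a)).card

/-- the product of the local densities -/
noncomputable def dens (A : ℕ → ℕ → Prop) (S : Finset ℕ) : ℝ := ∏ l ∈ S, (rho A l : ℝ) / ((l : ℝ) - 1)

lemma rho_pos (A : ℕ → ℕ → Prop) (l : ℕ) (h : ∃ a : ℕ, a < l ∧ A l a) : 1 ≤ rho A l := by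
  classical
  obtain ⟨a, ha, haA⟩ := h
  unfold rho
  apply card_pos.2
  exact ⟨a, by rw [mem_filter, mem_range]; exact ⟨ha, haA⟩⟩

lemma dens_pos (A : ℕ → ℕ → Prop) (S : Finset ℕ) (hS : ∀ l ∈ S, l.Prime) (hA1 : ∀ l ∈ S, ∃ a : ℕ, a < l ∧ A l a) : 0 < dens A S := by
  unfold dens
  apply prod_pos
  intro l hl
  have h1 : (2 : ℝ) ≤ l := by exact_mod_cast (hS l hl).two_le
  have h2 : (1 : ℝ) ≤ rho A l := by exact_mod_cast rho_pos A l (hA1 l hl)
  apply div_pos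
  · linarith
  · linarith

lemma prod_pos' (S : Finset ℕ) (hS : ∀ l ∈ S, l.Prime) : 1 ≤ ∏ l ∈ S, l :=
  Nat.one_le_iff_ne_zero.2 (prod_ne_zero_iff.2 fun l hl => (hS l hl).ne_zero)

lemma dens_eq (A : ℕ → ℕ → Prop) (S : Finset ℕ) (hS : ∀ l ∈ S, l.Prime) :
    dens A S = ((∏ l ∈ S, rho A l : ℕ) : ℝ) / (Nat.totient (∏ l ∈ S, l) : ℝ) := by
  rw [totient_prod S hS]
  unfold dens
  rw [prod_div_distrib, Nat.cast_prod, Nat.cast_prod]
  congr 1
  apply prod_congr rfl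
  intro l hl
  rw [Nat.cast_sub (hS l hl).one_le, Nat.cast_one]

set_option maxHeartbeats 1000000 in
open Classical in
/-- the sum of the von Mangoldt function over the classes -/
lemma psi_classes (X q : ℕ) (A : ℕ → ℕ → Prop) (S : Finset ℕ) (hS : ∀ l ∈ S, l.Prime) (hA0 : ∀ l ∈ S, ¬ A l 0)
    (hq : 1 ≤ q) (hdq : ∀ l ∈ S, ¬ l ∣ q) (c : ℕ) (hc : c.Coprime q) (E : ℝ)
    (hE : ∀ g : ℕ, g.Coprime (q * ∏ l ∈ S, l) →
      |∑ n ∈ (Icc 1 X).filter (fun n => n ≡ g [MOD (q * ∏ l ∈ S, l)]), ArithmeticFunction.vonMangoldt n -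
        X / (Nat.totient (q * ∏ l ∈ S, l) : ℝ)| ≤ E) :
    |∑ n ∈ (Icc 1 X).filter (fun n => n ≡ c [MOD q] ∧ ∀ l ∈ S, A l (n % l)), ArithmeticFunction.vonMangoldt n -
      ((∏ l ∈ S, rho A l : ℕ) : ℝ) * (X / (Nat.totient (q * ∏ l ∈ S, l) : ℝ))| ≤ ((∏ l ∈ S, rho A l : ℕ) : ℝ) * E := by
  obtain ⟨Q, hQ⟩ : ∃ Q, Q = q * ∏ l ∈ S, l := ⟨_, rfl⟩
  have hS0 := prod_pos' S hS
  have hQ1 : 1 ≤ Q := by rw [hQ]; exact Nat.mul_pos hq hS0
  rw [← hQ] at hE ⊢
  have hqQ : q ∣ Q := by rw [hQ]; exact dvd_mul_right _ _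
  have hlQ : ∀ l ∈ S, l ∣ Q := fun l hl => by rw [hQ]; exact (dvd_prod_of_mem _ hl).mul_left _
  obtain ⟨G, hG⟩ : ∃ G, G = (range Q).filter (fun n => n ≡ c [MOD q] ∧ ∀ l ∈ S, A l (n % l)) := ⟨_, rfl⟩
  have hGc : G.card = ∏ l ∈ S, rho A l := by
    rw [hG, hQ]
    exact crt_aux A S hS q hq hdq c
  obtain ⟨F, hF⟩ : ∃ F, F = (Icc 1 X).filter (fun n => n ≡ c [MOD q] ∧ ∀ l ∈ S, A l (n % l)) := ⟨_, rfl⟩
  rw [← hF, ← hGc]
  have hmem : ∀ n, (n ≡ c [MOD q] ∧ ∀ l ∈ S, A l (n % l)) ↔ n % Q ∈ G := by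
    intro n
    rw [hG, mem_filter, mem_range]
    have h1 : n % Q ≡ n [MOD q] := (Nat.mod_modEq n Q).of_dvd hqQ
    have h2 : ∀ l ∈ S, n % Q % l = n % l := fun l hl => Nat.mod_mod_of_dvd n (hlQ l hl)
    constructor
    · rintro ⟨a1, a2⟩
      refine ⟨Nat.mod_lt _ (by omega), h1.trans a1, fun l hl => ?_⟩
      rw [h2 l hl]
      exact a2 l hl
    · rintro ⟨_, a1, a2⟩
      refine ⟨h1.symm.trans a1, fun l hl => ?_⟩
      rw [← h2 l hl]
      exact a2 l hl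
  have hmap : ∀ n ∈ F, n % Q ∈ G := by
    intro n hn
    rw [hF, mem_filter] at hn
    exact (hmem n).1 hn.2
  rw [← sum_fiberwise_of_maps_to hmap, card_eq_sum_ones, Nat.cast_sum, sum_mul, sum_mul, ← sum_sub_distrib]
  refine (abs_sum_le_sum_abs _ _).trans (sum_le_sum fun g hg => ?_)
  have hg' := hg
  rw [hG, mem_filter, mem_range] at hg'
  have hcop : g.Coprime Q := by
    rw [hQ]
    apply Nat.Coprime.mul_right
    · have := hg'.2.1.gcd_eq
      unfold Nat.Coprime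
      rw [this]
      exact hc
    · apply Nat.Coprime.prod_right
      intro l hl
      rw [Nat.coprime_comm, Nat.Prime.coprime_iff_not_dvd (hS l hl)]
      intro hd
      apply hA0 l hl
      have := hg'.2.2 l hl
      rwa [Nat.mod_eq_zero_of_dvd hd] at this
  have hset : F.filter (fun n => n % Q = g) = (Icc 1 X).filter (fun n => n ≡ g [MOD Q]) := by
    ext n
    rw [hF, mem_filter, mem_filter, mem_filter]
    constructor
    · rintro ⟨⟨a1, a2⟩, a3⟩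
      refine ⟨a1, ?_⟩
      unfold Nat.ModEq
      rw [a3, Nat.mod_eq_of_lt hg'.1]
    · rintro ⟨a1, a2⟩
      have a3 : n % Q = g := by
        unfold Nat.ModEq at a2
        rw [a2, Nat.mod_eq_of_lt hg'.1]
      refine ⟨⟨a1, (hmem n).2 (by rw [a3]; exact hg)⟩, a3⟩
  rw [hset, Nat.cast_one, one_mul, one_mul]
  exact hE g hcop

set_option maxHeartbeats 1000000 in
open Classical in
theorem cnt_asymp (K : ℕ) (ε : ℝ) (hε : 0 < ε) : ∃ X₀ : ℕ, ∀ X : ℕ, X₀ ≤ X → ∀ (A : ℕ → ℕ → Prop) (S : Finset ℕ),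
    (∀ l ∈ S, l.Prime) → (∀ l ∈ S, ¬ A l 0) → (∀ l ∈ S, ∃ a : ℕ, a < l ∧ A l a) → ∀ q : ℕ, 1 ≤ q → (∀ l ∈ S, ¬ l ∣ q) →
    ((q * ∏ l ∈ S, l : ℕ) : ℝ) ≤ Real.log X ^ K → ∀ c : ℕ, c.Coprime q →
    |((PS A S q c X).card : ℝ) - dens A S * (X / (Nat.totient q * Real.log X))| ≤
      ε * (dens A S * (X / (Nat.totient q * Real.log X))) := by
  obtain ⟨δ, hδ⟩ : ∃ δ : ℝ, δ = min ε 1 / 4 := ⟨_, rfl⟩
  have hδ0 : 0 < δ := by rw [hδ]; have := lt_min hε one_pos; linarith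
  have hδ1 : δ ≤ 1 / 4 := by rw [hδ]; have := min_le_right ε 1; linarith
  have hδε : 4 * δ ≤ ε := by rw [hδ]; have := min_le_left ε 1; linarith
  obtain ⟨N0, h0⟩ := lam_ap K (K + 1)
  obtain ⟨n1, h1⟩ := ev_L' (1 / δ)
  obtain ⟨n2, h2⟩ := ev_pow (K + 1) (1 / 2) (2 / δ) (by norm_num)
  obtain ⟨n3, h3⟩ := ev_pow (K + 1) δ (1 / δ) hδ0
  refine ⟨max (max N0 n1) (max (max n2 n3) 3), fun X hX A S hS hA0 hA1 q hq hdq hQL c hc => ?_⟩
  have e1 := h1 X (by omega)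
  have e2 := h2 X (by omega)
  have e3 := h3 X (by omega)
  have hX1 : (1 : ℝ) ≤ X := by exact_mod_cast (by omega : 1 ≤ X)
  have hX0 : (0 : ℝ) < X := by linarith
  obtain ⟨Lg, hLg⟩ : ∃ Lg, Lg = Real.log X := ⟨_, rfl⟩
  obtain ⟨Q, hQ⟩ : ∃ Q, Q = q * ∏ l ∈ S, l := ⟨_, rfl⟩
  have hS0 := prod_pos' S hS
  have hQ1 : 1 ≤ Q := by rw [hQ]; exact Nat.mul_pos hq hS0
  rw [← hLg] at e1 e2 e3 hQL ⊢
  rw [← hQ] at hQL
  have hL0 : 0 < Lg := lt_of_lt_of_le (by positivity) e1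
  obtain ⟨g, hg⟩ : ∃ g : ℕ, g = ∏ l ∈ S, rho A l := ⟨_, rfl⟩
  have hg1 : 1 ≤ g := by
    rw [hg]
    exact Nat.one_le_iff_ne_zero.2 (prod_ne_zero_iff.2 fun l hl => by have := rho_pos A l (hA1 l hl); omega)
  have hgr : (1 : ℝ) ≤ g := by exact_mod_cast hg1
  obtain ⟨φ, hφ⟩ : ∃ φ : ℝ, φ = (Nat.totient Q : ℝ) := ⟨_, rfl⟩
  have hφ0 : 0 < φ := by rw [hφ]; exact_mod_cast Nat.totient_pos.2 (by omega)
  have hφQ : φ ≤ Lg ^ K := by
    rw [hφ]
    exact le_trans (by exact_mod_cast Nat.totient_le Q) hQL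
  obtain ⟨M, hM⟩ : ∃ M : ℝ, M = g * (X / φ) := ⟨_, rfl⟩
  have hM0 : 0 < M := by rw [hM]; positivity
  have hMX : X / Lg ^ K ≤ M := by
    rw [hM]
    calc (X : ℝ) / Lg ^ K ≤ 1 * (X / φ) := by
          rw [one_mul]
          exact div_le_div_of_nonneg_left hX0.le hφ0 hφQ
      _ ≤ _ := mul_le_mul_of_nonneg_right hgr (by positivity)
  have hmain : dens A S * (X / (Nat.totient q * Lg)) = M / Lg := by
    rw [dens_eq A S hS, hM, hφ, hQ, ← hg, Nat.totient_mul]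
    · have h1 : (0 : ℝ) < Nat.totient q := by exact_mod_cast Nat.totient_pos.2 (by omega)
      have h2 : (0 : ℝ) < Nat.totient (∏ l ∈ S, l) := by exact_mod_cast Nat.totient_pos.2 (by omega)
      push_cast
      field_simp
    · apply Nat.Coprime.prod_right
      intro l hl
      rw [Nat.coprime_comm, Nat.Prime.coprime_iff_not_dvd (hS l hl)]
      exact hdq l hl
  rw [hmain]
  have hpsi := psi_classes X q A S hS hA0 hq hdq c hc (X / Lg ^ (K + 1)) (by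
    intro a ha
    have h4 := h0 X (by omega) Q hQ1 (by rw [← hLg]; exact hQL) a X le_rfl
    rw [← hQ] at ha ⊢
    rw [if_pos ha, ← hLg] at h4
    exact h4)
  obtain ⟨F, hF⟩ : ∃ F, F = (Icc 1 X).filter (fun n => n ≡ c [MOD q] ∧ ∀ l ∈ S, A l (n % l)) := ⟨_, rfl⟩
  rw [← hF, ← hg, ← hQ, ← hφ, ← hM] at hpsi
  obtain ⟨Ps, hPs⟩ : ∃ Ps : ℝ, Ps = ∑ n ∈ F, ArithmeticFunction.vonMangoldt n := ⟨_, rfl⟩
  rw [← hPs] at hpsi
  have hpsi2 : |Ps - M| ≤ δ * M := by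
    refine hpsi.trans ?_
    rw [hM]
    have h5 : (X : ℝ) / Lg ^ (K + 1) ≤ δ * (X / φ) := by
      have h6 : φ ≤ δ * Lg ^ (K + 1) := by
        calc φ ≤ Lg ^ K := hφQ
          _ = Lg ^ K * 1 := by ring
          _ ≤ Lg ^ K * (δ * Lg) := by
              apply mul_le_mul_of_nonneg_left _ (by positivity)
              rw [div_le_iff₀ hδ0] at e1
              linarith
          _ = _ := by rw [pow_succ]; ring
      rw [mul_div_assoc', div_le_div_iff₀ (by positivity) hφ0]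
      calc (X : ℝ) * φ ≤ X * (δ * Lg ^ (K + 1)) := mul_le_mul_of_nonneg_left h6 hX0.le
        _ = _ := by ring
    calc (g : ℝ) * (X / Lg ^ (K + 1)) ≤ g * (δ * (X / φ)) := mul_le_mul_of_nonneg_left h5 (by linarith)
      _ = _ := by ring
  obtain ⟨b1, b2⟩ := abs_le.1 hpsi2
  obtain ⟨P, hP⟩ : ∃ P, P = PS A S q c X := ⟨_, rfl⟩
  rw [← hP]
  have hPF : P = F.filter (fun n => n.Prime) := by
    rw [hP, hF, filter_filter]
    unfold PS
    apply filter_congr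
    intro n _
    tauto
  -- lower bound
  have c1 : Ps ≤ P.card * Lg + 2 * √(X : ℝ) * Lg := by
    have g4 := pp_one X (by omega) F (fun n => n) (fun a _ b _ h => h) (by
      intro s hs
      rw [hF, mem_filter, mem_Icc] at hs
      exact ⟨by omega, hs.1.2⟩)
    rw [← hLg] at g4
    have g6 : ∑ n ∈ F, ArithmeticFunction.vonMangoldt n ≤ P.card * Lg + ∑ s ∈ F, (if s.Prime then (0 : ℝ) else ArithmeticFunction.vonMangoldt s) := by
      rw [hPF, card_eq_sum_ones, Nat.cast_sum, sum_mul, sum_filter, ← sum_add_distrib]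
      apply sum_le_sum
      intro n hn
      rw [hF, mem_filter, mem_Icc] at hn
      by_cases hp : n.Prime
      · rw [if_pos hp, if_pos hp, ArithmeticFunction.vonMangoldt_apply_prime hp, Nat.cast_one, one_mul, add_zero, hLg]
        apply Real.log_le_log (by exact_mod_cast hp.pos)
        exact_mod_cast hn.1.2
      · rw [if_neg hp, if_neg hp, zero_add]
    rw [hPs]
    linarith
  have c2 : 2 * √(X : ℝ) ≤ δ * (M / Lg) := by
    have hs0 : 0 ≤ √(X : ℝ) := Real.sqrt_nonneg _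
    have hsq : √(X : ℝ) * √(X : ℝ) = X := Real.mul_self_sqrt hX0.le
    rw [← Real.sqrt_eq_rpow, div_mul_eq_mul_div, div_le_iff₀ hδ0] at e2
    have h7 : 2 * √(X : ℝ) * Lg ^ (K + 1) ≤ δ * X := by
      calc 2 * √(X : ℝ) * Lg ^ (K + 1) = √(X : ℝ) * (2 * Lg ^ (K + 1)) := by ring
        _ ≤ √(X : ℝ) * (√(X : ℝ) * δ) := mul_le_mul_of_nonneg_left e2 hs0
        _ = δ * (√(X : ℝ) * √(X : ℝ)) := by ring
        _ = _ := by rw [hsq]
    have h8 : (X : ℝ) / Lg ^ (K + 1) ≤ M / Lg := by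
      rw [pow_succ, ← div_div]
      exact div_le_div_of_nonneg_right hMX hL0.le
    calc 2 * √(X : ℝ) ≤ δ * (X / Lg ^ (K + 1)) := by
          rw [mul_div_assoc', le_div_iff₀ (by positivity)]
          exact h7
      _ ≤ _ := mul_le_mul_of_nonneg_left h8 hδ0.le
  have c3 : M / Lg * (1 - 2 * δ) ≤ P.card := by
    have h9 : M * (1 - δ) ≤ P.card * Lg + 2 * √(X : ℝ) * Lg := by linarith
    have h10 : M * (1 - δ) ≤ P.card * Lg + δ * M := by
      have : 2 * √(X : ℝ) * Lg ≤ δ * (M / Lg) * Lg := mul_le_mul_of_nonneg_right c2 hL0.le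
      have e : δ * (M / Lg) * Lg = δ * M := by field_simp
      linarith
    rw [div_mul_eq_mul_div, div_le_iff₀ hL0]
    linarith
  -- upper bound
  obtain ⟨Z, hZ⟩ : ∃ Z : ℝ, Z = (X : ℝ) ^ (1 - δ) := ⟨_, rfl⟩
  have hZ0 : 0 < Z := by rw [hZ]; exact Real.rpow_pos_of_pos hX0 _
  have hZX : Z * (X : ℝ) ^ δ = X := by
    rw [hZ, ← Real.rpow_add hX0, sub_add_cancel, Real.rpow_one]
  have c4 : Z ≤ δ * (M / Lg) := by
    have h8 : (X : ℝ) / Lg ^ (K + 1) ≤ M / Lg := by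
      rw [pow_succ, ← div_div]
      exact div_le_div_of_nonneg_right hMX hL0.le
    calc Z ≤ δ * (X / Lg ^ (K + 1)) := by
          rw [mul_div_assoc', le_div_iff₀ (by positivity)]
          rw [div_mul_eq_mul_div, one_mul, div_le_iff₀ hδ0] at e3
          calc Z * Lg ^ (K + 1) ≤ Z * ((X : ℝ) ^ δ * δ) := mul_le_mul_of_nonneg_left e3 hZ0.le
            _ = δ * (Z * (X : ℝ) ^ δ) := by ring
            _ = _ := by rw [hZX]
      _ ≤ _ := mul_le_mul_of_nonneg_left h8 hδ0.le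
  have hlogZ : Real.log Z = (1 - δ) * Lg := by rw [hZ, Real.log_rpow hX0, hLg]
  have c5 : (P.card : ℝ) ≤ Z + ((P.filter (fun p : ℕ => Z < p)).card : ℝ) := by
    have h11 : P.card = (P.filter (fun p : ℕ => Z < p)).card + (P.filter (fun p : ℕ => ¬ Z < p)).card :=
      (card_filter_add_card_filter_not (s := P) (fun p : ℕ => Z < p)).symm
    have h12 : (P.filter (fun p : ℕ => ¬ Z < p)).card ≤ ⌊Z⌋₊ := by
      calc (P.filter (fun p : ℕ => ¬ Z < p)).card ≤ (Icc 1 ⌊Z⌋₊).card := by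
            apply card_le_card
            intro p hp
            rw [mem_filter, hPF, mem_filter, hF, mem_filter, mem_Icc] at hp
            rw [mem_Icc]
            exact ⟨hp.1.1.1.1, Nat.le_floor (not_lt.1 hp.2)⟩
        _ = _ := by rw [Nat.card_Icc]; omega
    have h13 : (((P.filter (fun p : ℕ => ¬ Z < p)).card : ℕ) : ℝ) ≤ Z := le_trans (by exact_mod_cast h12) (Nat.floor_le hZ0.le)
    have h14 : (P.card : ℝ) = ((P.filter (fun p : ℕ => Z < p)).card : ℝ) + ((P.filter (fun p : ℕ => ¬ Z < p)).card : ℝ) := by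
      exact_mod_cast h11
    linarith
  have c6 : ((P.filter (fun p : ℕ => Z < p)).card : ℝ) * ((1 - δ) * Lg) ≤ Ps := by
    rw [card_eq_sum_ones, Nat.cast_sum, sum_mul, hPs]
    have hsub : P.filter (fun p : ℕ => Z < p) ⊆ F := by
      intro p hp
      rw [mem_filter, hPF, mem_filter] at hp
      exact hp.1.1
    refine le_trans (sum_le_sum fun p hp => ?_) (sum_le_sum_of_subset_of_nonneg hsub fun _ _ _ => ArithmeticFunction.vonMangoldt_nonneg)
    rw [mem_filter, hPF, mem_filter] at hp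
    rw [ArithmeticFunction.vonMangoldt_apply_prime hp.1.2, Nat.cast_one, one_mul, ← hlogZ]
    exact Real.log_le_log hZ0 hp.2.le
  have c7 : (P.card : ℝ) ≤ M / Lg * (1 + 4 * δ) := by
    have h15 : ((P.filter (fun p : ℕ => Z < p)).card : ℝ) * ((1 - δ) * Lg) ≤ (1 + δ) * M := by linarith
    have h16 : ((P.filter (fun p : ℕ => Z < p)).card : ℝ) ≤ M / Lg * ((1 + δ) / (1 - δ)) := by
      have h17 : 0 < (1 - δ) * Lg := mul_pos (by linarith) hL0
      rw [← le_div_iff₀ h17] at h15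
      refine h15.trans (le_of_eq ?_)
      have : (1 - δ) ≠ 0 := by linarith
      field_simp
    have h18 : (1 + δ) / (1 - δ) ≤ 1 + 3 * δ := by
      rw [div_le_iff₀ (by linarith)]
      nlinarith
    have hML : 0 < M / Lg := div_pos hM0 hL0
    have h19 := mul_le_mul_of_nonneg_left h18 hML.le
    linarith
  have hML : 0 < M / Lg := div_pos hM0 hL0
  rw [abs_le]
  constructor
  · have : 2 * δ * (M / Lg) ≤ ε * (M / Lg) := mul_le_mul_of_nonneg_right (by linarith) hML.le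
    linarith
  · have : 4 * δ * (M / Lg) ≤ ε * (M / Lg) := mul_le_mul_of_nonneg_right hδε hML.le
    linarith

end Pool.Agent.Run7.h414.HL
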