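import Pool.Agent.Run7.h414.HL.A1
import Pool.Agent.N625.PT.X16
import Pool.Agent.N625.PT.X13

set_option autoImplicit false

/-! The number of the primes `p ≤ X` such that the numbers `p + a j` are prime to given multiples of a small primorial. -/

namespace Pool.Agent.Run7.h414.HL
open Finset
open Pool.Agent.H373R2.T7 (pz mem_pz Vz Vz_pos Vz_le_one ev_L')

/-- the classes modulo `l` in which `x` and all the `x + a j` are invertible -/
def Good {r : ℕ} (a : Fin r → ℕ) (l x : ℕ) : Prop := x % l ≠ 0 ∧ ∀ j, (x + a j) % l ≠ 0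

/-- the primes `p ≤ X` such that `p + a j` is prime to `D j` -/
def AdmT {r : ℕ} (a : Fin r → ℕ) (D : Fin r → ℕ) (X : ℕ) : Finset ℕ :=
  (Icc 1 X).filter (fun p : ℕ => p.Prime ∧ ∀ j, (p + a j).Coprime (D j))

lemma prim_eq (y : ℕ) : ∏ l ∈ pz y, l = primorial y := by
  unfold primorial pz
  apply prod_congr _ (fun _ _ => rfl)
  ext l
  rw [mem_filter, mem_filter, mem_Icc, mem_range]
  constructor
  · rintro ⟨⟨a, b⟩, c⟩
    exact ⟨by omega, c⟩
  · rintro ⟨a, b⟩
    exact ⟨⟨b.one_le, by omega⟩, b⟩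

lemma few_big (h y : ℕ) (hh : 1 ≤ h) (B : ℝ) (hB : Real.log h ≤ B) (hy : 2 ≤ y) :
    ((h.primeFactors.filter (fun l => y < l)).card : ℝ) * Real.log y ≤ B := by
  have h1 : ∏ l ∈ h.primeFactors.filter (fun l => y < l), y ≤ h := by
    calc ∏ l ∈ h.primeFactors.filter (fun l => y < l), y ≤ ∏ l ∈ h.primeFactors.filter (fun l => y < l), l :=
          prod_le_prod' fun l hl => (mem_filter.1 hl).2.le
      _ ≤ ∏ l ∈ h.primeFactors, l := by
          apply prod_le_prod_of_subset_of_one_le' (filter_subset _ _)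
          intro l hl _
          exact (Nat.prime_of_mem_primeFactors hl).one_le
      _ ≤ h := Nat.le_of_dvd (by omega) (Nat.prod_primeFactors_dvd h)
  rw [prod_const] at h1
  refine le_trans ?_ hB
  rw [← Real.log_pow]
  apply Real.log_le_log
  · have : (0 : ℝ) < y := by exact_mod_cast (by omega : 0 < y)
    positivity
  · exact_mod_cast h1

set_option maxHeartbeats 1000000 in
theorem adm_count {r : ℕ} (a : Fin r → ℕ) (ha1 : ∀ j, 1 ≤ a j) (hadm : ∀ l : ℕ, l.Prime → ∃ x : ℕ, x < l ∧ Good a l x)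
    (b K₁ J C : ℕ) (hb : 2 ≤ b) (θ : ℝ) (hθ : 0 < θ) (ε : ℝ) (hε : 0 < ε) :
    ∃ k₀ : ℕ, ∀ k : ℕ, k₀ ≤ k → ∀ y : ℕ, θ * Real.log k ≤ y → y ≤ K₁ * Real.log k →
    ∀ h : Fin r → ℕ, (∀ j, 1 ≤ h j ∧ h j ≤ k ^ J) → ∀ X : ℕ, b ^ k ≤ X * k ^ C →
    |((AdmT a (fun j => primorial y * h j) X).card : ℝ) - dens (Good a) (pz y) * (X / Real.log X)| ≤
      ε * (dens (Good a) (pz y) * (X / Real.log X)) := by
  classical
  obtain ⟨δ, hδ⟩ : ∃ δ : ℝ, δ = min ε 1 / 3 := ⟨_, rfl⟩
  have hδ0 : 0 < δ := by rw [hδ]; have := lt_min hε one_pos; linarith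
  have hδ1 : δ ≤ 1 / 3 := by rw [hδ]; have := min_le_right ε 1; linarith
  have hδε : 3 * δ ≤ ε := by rw [hδ]; have := min_le_left ε 1; linarith
  obtain ⟨K, hK⟩ : ∃ K, K = 2 * K₁ + J + 1 := ⟨_, rfl⟩
  obtain ⟨n0, h0⟩ := cnt_asymp K δ hδ0
  obtain ⟨n1, h1⟩ := Pool.Agent.N625.PT.X_large b C hb
  obtain ⟨n2, h2⟩ := Pool.Agent.N625.PT.log_low b C hb
  obtain ⟨n3, h3⟩ := ev_pow (2 * K₁ + 2) 1 (K₁ * 4 ^ (2 * K₁ + 1) / δ) one_pos
  -- `y` is large
  obtain ⟨amax, hamax⟩ : ∃ m : ℕ, m = univ.sup a := ⟨_, rfl⟩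
  obtain ⟨n4, h4⟩ := ev_L' ((amax + 3) / θ)
  obtain ⟨Y0, hY0⟩ := ev_L' (2 * r * J / (θ * δ))
  obtain ⟨n5, h5⟩ := ev_L' ((Y0 + 1) / θ)
  refine ⟨max (max n0 n1) (max (max n2 n3) (max (max n4 n5) (max 3 (4 ^ K)))), fun k hk y hy1 hy2 h hh X hX => ?_⟩
  have hk3 : 3 ≤ k := by omega
  have hk4 : 4 ^ K ≤ k := by omega
  have hkX := h1 k (by omega) X hX
  have hlow := h2 k (by omega) X hX
  have hbig := h3 X (by omega)
  have hkr : (3 : ℝ) ≤ k := by exact_mod_cast hk3
  have hk0 : (0 : ℝ) < k := by linarith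
  have hX1 : (1 : ℝ) ≤ X := by exact_mod_cast (by omega : 1 ≤ X)
  have hX0 : (0 : ℝ) < X := by linarith
  obtain ⟨Lg, hLg⟩ : ∃ Lg, Lg = Real.log X := ⟨_, rfl⟩
  rw [← hLg] at hlow hbig ⊢
  have hL0 : 0 < Lg := by linarith
  have hlk : 0 < Real.log k := Real.log_pos (by linarith)
  have hya : (amax : ℝ) + 3 ≤ y := by
    have := h4 k (by omega)
    rw [div_le_iff₀ hθ] at this
    linarith
  have hya' : amax + 3 ≤ y := by exact_mod_cast hya
  have hyY : Y0 ≤ y := by
    have := h5 k (by omega)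
    rw [div_le_iff₀ hθ] at this
    have h' : (Y0 : ℝ) + 1 ≤ y := by linarith
    have : Y0 + 1 ≤ y := by exact_mod_cast h'
    omega
  have hlogy := hY0 y hyY
  have hy0 : (0 : ℝ) < y := by exact_mod_cast (by omega : 0 < y)
  have hly : 0 < Real.log y := Real.log_pos (by exact_mod_cast (by omega : 1 < y))
  -- the primorial
  obtain ⟨S, hS⟩ : ∃ S, S = pz y := ⟨_, rfl⟩
  have hSp : ∀ l ∈ S, l.Prime := fun l hl => by rw [hS, mem_pz] at hl; exact hl.2
  have hM : ∏ l ∈ S, l = primorial y := by rw [hS]; exact prim_eq y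
  have hprim : primorial y ≤ k ^ (2 * K₁) := by
    have := Pool.Agent.N625.PT.mult_small K₁ 0 k y 1 hk3 hy2 (by rw [pow_zero])
    simpa using this
  have hkL : (k : ℝ) ≤ 4 * Lg := by linarith
  have hKL : (k : ℝ) ^ (2 * K₁ + J) ≤ Lg ^ K := by
    have g2 : ((k : ℝ) / 4) ^ K ≤ Lg ^ K := pow_le_pow_left₀ (by positivity) hlow _
    refine le_trans ?_ g2
    rw [div_pow, le_div_iff₀ (by positivity), hK, pow_succ (k : ℝ)]
    have g3 : ((4 : ℝ)) ^ K ≤ k := by exact_mod_cast hk4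
    rw [hK] at g3
    exact mul_le_mul_of_nonneg_left g3 (by positivity)
  have hA0 : ∀ l ∈ S, ¬ Good a l 0 := fun l _ hg => hg.1 (Nat.zero_mod l)
  have hA1 : ∀ l ∈ S, ∃ x : ℕ, x < l ∧ Good a l x := fun l hl => hadm l (hSp l hl)
  have hdpos := dens_pos (Good a) S hSp hA1
  rw [← hS]
  obtain ⟨Mn, hMn⟩ : ∃ Mn : ℝ, Mn = dens (Good a) S * (X / Lg) := ⟨_, rfl⟩
  have hMn0 : 0 < Mn := by rw [hMn]; positivity
  rw [← hMn]
  -- main count
  have c1 := h0 X (by omega) (Good a) S hSp hA0 hA1 1 le_rfl (fun l hl hd => (hSp l hl).one_lt.ne' (Nat.dvd_one.1 hd)) (by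
    rw [one_mul, hM, ← hLg]
    have e1 : ((primorial y : ℕ) : ℝ) ≤ (k : ℝ) ^ (2 * K₁) := by exact_mod_cast hprim
    refine e1.trans (le_trans ?_ hKL)
    exact pow_le_pow_right₀ (by linarith) (by omega)) 0 (Nat.coprime_one_right 0)
  rw [← hLg, Nat.totient_one, Nat.cast_one, one_mul, ← hMn] at c1
  obtain ⟨P, hP⟩ : ∃ P, P = PS (Good a) S 1 0 X := ⟨_, rfl⟩
  rw [← hP] at c1
  obtain ⟨Ad, hAd⟩ : ∃ Ad, Ad = AdmT a (fun j => primorial y * h j) X := ⟨_, rfl⟩
  rw [← hAd]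
  -- upper bound
  have hgood : ∀ l p : ℕ, Good a l (p % l) ↔ ¬ l ∣ p ∧ ∀ j, ¬ l ∣ p + a j := by
    intro l p
    unfold Good
    rw [Nat.mod_mod, Ne, ← Nat.dvd_iff_mod_eq_zero]
    apply and_congr Iff.rfl
    apply forall_congr'
    intro j
    rw [Nat.mod_add_mod, Ne, ← Nat.dvd_iff_mod_eq_zero]
  have c2 : Ad ⊆ P ∪ Icc 1 y := by
    intro p hp
    rw [hAd] at hp
    unfold AdmT at hp
    rw [mem_filter, mem_Icc] at hp
    rw [mem_union]
    by_cases hpy : p ≤ y
    · right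
      rw [mem_Icc]
      exact ⟨hp.1.1, hpy⟩
    left
    rw [hP]
    unfold PS
    rw [mem_filter, mem_Icc]
    refine ⟨hp.1, hp.2.1, Nat.modEq_one, fun l hl => ?_⟩
    rw [hgood]
    have hlp := hSp l hl
    have hly : l ≤ y := by rw [hS, mem_pz] at hl; exact hl.1
    constructor
    · intro hd
      rw [Nat.prime_dvd_prime_iff_eq hlp hp.2.1] at hd
      omega
    · intro j hd
      have hcop := hp.2.2 j
      have hlM : l ∣ primorial y * h j := by
        rw [← hM]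
        exact (dvd_prod_of_mem _ hl).mul_right _
      have := Nat.dvd_gcd hd hlM
      rw [Nat.Coprime] at hcop
      rw [hcop] at this
      exact hlp.one_lt.ne' (Nat.dvd_one.1 this)
  have c3 : (Ad.card : ℝ) ≤ P.card + y := by
    have : Ad.card ≤ P.card + (Icc 1 y).card := (card_le_card c2).trans (card_union_le _ _)
    rw [Nat.card_Icc] at this
    have : Ad.card ≤ P.card + y := by omega
    exact_mod_cast this
  -- y is small
  have c4 : (y : ℝ) ≤ δ * Mn := by
    have hd1 : 1 / (k : ℝ) ^ (2 * K₁) ≤ dens (Good a) S := by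
      rw [dens_eq (Good a) S hSp, hM]
      have t1 : (1 : ℝ) ≤ ((∏ l ∈ S, rho (Good a) l : ℕ) : ℝ) := by
        have : 1 ≤ ∏ l ∈ S, rho (Good a) l :=
          Nat.one_le_iff_ne_zero.2 (prod_ne_zero_iff.2 fun l hl => by have := rho_pos (Good a) l (hA1 l hl); omega)
        exact_mod_cast this
      have t2 : ((Nat.totient (primorial y) : ℕ) : ℝ) ≤ (k : ℝ) ^ (2 * K₁) := by
        exact_mod_cast (Nat.totient_le _).trans hprim
      have t3 : (0 : ℝ) < (Nat.totient (primorial y) : ℕ) := by exact_mod_cast Nat.totient_pos.2 (primorial_pos y)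
      exact div_le_div₀ (by linarith) t1 t3 t2
    have hyk : (y : ℝ) ≤ K₁ * k := hy2.trans (mul_le_mul_of_nonneg_left ((Real.log_le_sub_one_of_pos hk0).trans (by linarith)) (Nat.cast_nonneg _))
    rw [Real.rpow_one, div_mul_eq_mul_div, div_le_iff₀ hδ0] at hbig
    have t4 : (K₁ : ℝ) * k * (k : ℝ) ^ (2 * K₁) * Lg ≤ X * δ := by
      refine le_trans ?_ hbig
      calc (K₁ : ℝ) * k * (k : ℝ) ^ (2 * K₁) * Lg = K₁ * (k : ℝ) ^ (2 * K₁ + 1) * Lg := by rw [pow_succ]; ring
        _ ≤ K₁ * (4 * Lg) ^ (2 * K₁ + 1) * Lg := by gcongr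
        _ = _ := by rw [mul_pow, pow_succ Lg (2 * K₁ + 1)]; ring
    calc (y : ℝ) ≤ K₁ * k := hyk
      _ ≤ δ * (1 / (k : ℝ) ^ (2 * K₁) * (X / Lg)) := by
          rw [one_div_mul_eq_div, div_div, mul_div_assoc', le_div_iff₀ (by positivity)]
          calc (K₁ : ℝ) * k * (Lg * (k : ℝ) ^ (2 * K₁)) = (K₁ : ℝ) * k * (k : ℝ) ^ (2 * K₁) * Lg := by ring
            _ ≤ X * δ := t4
            _ = _ := mul_comm _ _
      _ ≤ δ * (dens (Good a) S * (X / Lg)) := by gcongr
      _ = _ := by rw [hMn]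
  -- lower bound
  obtain ⟨T, hT⟩ : ∃ T : Fin r → Finset ℕ, T = fun j => (h j).primeFactors.filter (fun l => y < l) := ⟨_, rfl⟩
  obtain ⟨cl, hcl⟩ : ∃ cl : Fin r → ℕ → ℕ, cl = fun j l => l - a j % l := ⟨_, rfl⟩
  have c5 : P \ Ad ⊆ univ.biUnion (fun j => (T j).biUnion (fun l => PS (Good a) S l (cl j l) X)) := by
    intro p hp
    rw [mem_sdiff, hP, hAd] at hp
    obtain ⟨hp1, hp2⟩ := hp
    unfold PS at hp1
    rw [mem_filter, mem_Icc] at hp1
    obtain ⟨p1, p2, _, p4⟩ := hp1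
    unfold AdmT at hp2
    rw [mem_filter, mem_Icc] at hp2
    have hex : ∃ j, ¬ (p + a j).Coprime (primorial y * h j) := by
      by_contra hcon
      push Not at hcon
      exact hp2 ⟨p1, p2, hcon⟩
    obtain ⟨j, hj⟩ := hex
    obtain ⟨l, hlp, hla, hlb⟩ := Nat.Prime.not_coprime_iff_dvd.1 hj
    have hnS : l ∉ S := by
      intro hl
      exact ((hgood l p).1 (p4 l hl)).2 j hla
    have hly : y < l := by
      by_contra hcon
      apply hnS
      rw [hS, mem_pz]
      exact ⟨not_lt.1 hcon, hlp⟩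
    have hlh : l ∣ h j := by
      rcases (Nat.Prime.dvd_mul hlp).1 hlb with h' | h'
      · exfalso
        rw [← hM] at h'
        obtain ⟨l', hl', hd'⟩ := (Prime.dvd_finsetProd_iff hlp.prime _).1 h'
        rw [Nat.prime_dvd_prime_iff_eq hlp (hSp l' hl')] at hd'
        exact hnS (hd' ▸ hl')
      · exact h'
    rw [mem_biUnion]
    refine ⟨j, mem_univ _, ?_⟩
    rw [mem_biUnion]
    refine ⟨l, ?_, ?_⟩
    · rw [hT, mem_filter]
      exact ⟨Nat.mem_primeFactors.2 ⟨hlp, hlh, by have := (hh j).1; omega⟩, hly⟩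
    · unfold PS
      rw [mem_filter, mem_Icc]
      refine ⟨p1, p2, ?_, p4⟩
      rw [hcl]
      have e1 : a j % l ≤ l := (Nat.mod_lt _ hlp.pos).le
      have e2 : p + a j % l ≡ (l - a j % l) + a j % l [MOD l] := by
        rw [Nat.sub_add_cancel e1]
        have e3 : p + a j % l ≡ p + a j [MOD l] := (Nat.mod_modEq (a j) l).add_left p
        refine e3.trans (((Nat.modEq_zero_iff_dvd).2 hla).trans ?_)
        exact ((Nat.modEq_zero_iff_dvd).2 (dvd_refl l)).symm
      exact Nat.ModEq.add_right_cancel' _ e2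
  have c6 : ∀ j, ∀ l ∈ T j, ((PS (Good a) S l (cl j l) X).card : ℝ) ≤ 2 * Mn / y := by
    intro j l hl
    rw [hT, mem_filter] at hl
    have hlp := Nat.prime_of_mem_primeFactors hl.1
    have hlh := Nat.le_of_dvd (by have := (hh j).1; omega) (Nat.dvd_of_mem_primeFactors hl.1)
    have haj : a j ≤ amax := by rw [hamax]; exact le_sup (f := a) (mem_univ j)
    have e1 : a j % l = a j := Nat.mod_eq_of_lt (by omega)
    have haj1 := ha1 j
    have hcop : (cl j l).Coprime l := by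
      rw [hcl]
      show (l - a j % l).Coprime l
      rw [e1, Nat.coprime_comm, Nat.Prime.coprime_iff_not_dvd hlp]
      intro hd
      have := Nat.le_of_dvd (by omega) hd
      omega
    have d1 := h0 X (by omega) (Good a) S hSp hA0 hA1 l hlp.one_le (fun l' hl' hd => by
      rw [Nat.prime_dvd_prime_iff_eq (hSp l' hl') hlp] at hd
      rw [hS, mem_pz] at hl'
      omega) (by
      rw [hM, ← hLg]
      have e1 : ((l * primorial y : ℕ) : ℝ) ≤ (k : ℝ) ^ (2 * K₁ + J) := by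
        have : l * primorial y ≤ k ^ (2 * K₁ + J) := by
          rw [pow_add, mul_comm]
          exact Nat.mul_le_mul hprim (hlh.trans (hh j).2)
        exact_mod_cast this
      exact e1.trans hKL) (cl j l) hcop
    rw [← hLg, Nat.totient_prime hlp] at d1
    have d2 := (abs_le.1 d1).2
    have hly' : (y : ℝ) ≤ ((l - 1 : ℕ) : ℝ) := by
      have : y ≤ l - 1 := by omega
      exact_mod_cast this
    have d3 : dens (Good a) S * (X / (((l - 1 : ℕ) : ℝ) * Lg)) ≤ Mn / y := by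
      rw [hMn]
      have : (X : ℝ) / (((l - 1 : ℕ) : ℝ) * Lg) ≤ X / Lg / y := by
        rw [div_div]
        apply div_le_div_of_nonneg_left hX0.le (by positivity)
        calc Lg * (y : ℝ) ≤ Lg * ((l - 1 : ℕ) : ℝ) := mul_le_mul_of_nonneg_left hly' hL0.le
          _ = _ := mul_comm _ _
      calc dens (Good a) S * (X / (((l - 1 : ℕ) : ℝ) * Lg)) ≤ dens (Good a) S * (X / Lg / y) := mul_le_mul_of_nonneg_left this hdpos.le
        _ = _ := by rw [mul_div_assoc]
    have d4 : 0 ≤ dens (Good a) S * (X / (((l - 1 : ℕ) : ℝ) * Lg)) := by positivity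
    have d5 : δ * (dens (Good a) S * (X / (((l - 1 : ℕ) : ℝ) * Lg))) ≤ 1 * (dens (Good a) S * (X / (((l - 1 : ℕ) : ℝ) * Lg))) :=
      mul_le_mul_of_nonneg_right (by linarith) d4
    rw [mul_div_assoc]
    linarith
  have c7 : ((P \ Ad).card : ℝ) ≤ δ * Mn := by
    have d1 : (P \ Ad).card ≤ ∑ j, ∑ l ∈ T j, (PS (Good a) S l (cl j l) X).card :=
      (card_le_card c5).trans (card_biUnion_le.trans (sum_le_sum fun j _ => card_biUnion_le))
    have d2 : ((P \ Ad).card : ℝ) ≤ ∑ j, ∑ l ∈ T j, ((PS (Good a) S l (cl j l) X).card : ℝ) := by exact_mod_cast d1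
    have d3 : ∀ j, ∑ l ∈ T j, ((PS (Good a) S l (cl j l) X).card : ℝ) ≤ (J * Real.log k / Real.log y) * (2 * Mn / y) := by
      intro j
      calc ∑ l ∈ T j, ((PS (Good a) S l (cl j l) X).card : ℝ) ≤ ∑ l ∈ T j, 2 * Mn / y := sum_le_sum (c6 j)
        _ = (T j).card * (2 * Mn / y) := by rw [sum_const, nsmul_eq_mul]
        _ ≤ _ := by
            apply mul_le_mul_of_nonneg_right _ (by positivity)
            rw [le_div_iff₀ hly, hT]
            apply few_big (h j) y (hh j).1 _ _ (by omega)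
            have : Real.log (h j) ≤ Real.log ((k : ℝ) ^ J) := by
              apply Real.log_le_log
              · exact_mod_cast (hh j).1
              · exact_mod_cast (hh j).2
            rwa [Real.log_pow] at this
    have d4 : ∑ j, ∑ l ∈ T j, ((PS (Good a) S l (cl j l) X).card : ℝ) ≤ r * ((J * Real.log k / Real.log y) * (2 * Mn / y)) := by
      calc ∑ j, ∑ l ∈ T j, ((PS (Good a) S l (cl j l) X).card : ℝ) ≤ ∑ _j : Fin r, (J * Real.log k / Real.log y) * (2 * Mn / y) :=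
            sum_le_sum fun j _ => d3 j
        _ = _ := by rw [sum_const, card_univ, Fintype.card_fin, nsmul_eq_mul]
    refine d2.trans (d4.trans ?_)
    have d5 : (2 * r * J : ℝ) ≤ Real.log y * (θ * δ) := by
      rw [div_le_iff₀ (by positivity)] at hlogy
      exact hlogy
    have d6 : (r : ℝ) * ((J * Real.log k / Real.log y) * (2 * Mn / y)) = (2 * r * J) * Real.log k * Mn / (Real.log y * y) := by
      field_simp
    rw [d6, div_le_iff₀ (by positivity)]
    calc (2 * r * J : ℝ) * Real.log k * Mn ≤ (Real.log y * (θ * δ)) * Real.log k * Mn := by gcongr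
      _ = δ * Mn * (Real.log y * (θ * Real.log k)) := by ring
      _ ≤ δ * Mn * (Real.log y * y) := by gcongr
  have c8 : (P.card : ℝ) ≤ Ad.card + (P \ Ad).card := by
    have : P.card ≤ Ad.card + (P \ Ad).card := by
      calc P.card ≤ (Ad ∪ (P \ Ad)).card := by
            apply card_le_card
            intro p hp
            rw [mem_union, mem_sdiff]
            by_cases hpa : p ∈ Ad
            · exact Or.inl hpa
            · exact Or.inr ⟨hp, hpa⟩
        _ ≤ _ := card_union_le _ _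
    exact_mod_cast this
  obtain ⟨f1, f2⟩ := abs_le.1 c1
  rw [abs_le]
  have hfin : 3 * δ * Mn ≤ ε * Mn := mul_le_mul_of_nonneg_right hδε hMn0.le
  have hδM : 0 < δ * Mn := mul_pos hδ0 hMn0
  constructor
  · linarith
  · linarith

end Pool.Agent.Run7.h414.HL
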